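import Pool.Agent.helper22.OB.SpecD

set_option autoImplicit false

namespace Pool.Agent.OB

open Pool.Agent.helper58.DC Pool.Agent.DI Pool.Agent.GR

theorem BRP_smul {G : Type} [Group G] [Finite G] (z w : G → ℂ) (s t : ℂ) (c : G) :
    cv (fun x => z x * s) (fun x => w x * t) c = cv z w c * (s * t) := by
  have : Fintype G := Fintype.ofFinite G
  unfold cv
  rw [finsum_eq_sum_of_fintype, finsum_eq_sum_of_fintype, Finset.sum_mul]
  exact Finset.sum_congr rfl fun x _ => by ring

theorem BRP (hC6 : Pool.Agent.DI.C6_stmt) : BRP_stmt := by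
  classical
  intro p M hS G _ _ P hP z w hz hw hzi hwi c hc
  have : Fintype G := Fintype.ofFinite G
  have hp : Fact p.Prime := ⟨hS.pr⟩
  obtain ⟨b, hb, hb'⟩ := IntAt.common hS (Finset.univ : Finset G) (f := z) (fun i _ => hzi i)
  obtain ⟨d, hd, hd'⟩ := IntAt.common hS (Finset.univ : Finset G) (f := w) (fun i _ => hwi i)
  have h1 : IsZO (fun x => z x * (b : ℂ)) := by
    refine ⟨fun x y => ?_, fun x => hb' x (Finset.mem_univ x)⟩
    show z _ * (b : ℂ) = z _ * (b : ℂ)
    rw [hz]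
  have h2 : IsZO (fun x => w x * (d : ℂ)) := by
    refine ⟨fun x y => ?_, fun x => hd' x (Finset.mem_univ x)⟩
    show w _ * (d : ℂ) = w _ * (d : ℂ)
    rw [hw]
  obtain ⟨a, ha, hq⟩ := hC6 G p P hP _ _ h1 h2 c hc
  have e1 : (fun x => if x ∈ cz P then z x * (b : ℂ) else 0) =
      fun x => (if x ∈ cz P then z x else 0) * (b : ℂ) := by
    funext x
    split_ifs <;> simp
  have e2 : (fun x => if x ∈ cz P then w x * (d : ℂ) else 0) =
      fun x => (if x ∈ cz P then w x else 0) * (d : ℂ) := by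
    funext x
    split_ifs <;> simp
  simp only [e1, e2] at hq
  rw [BRP_smul, BRP_smul] at hq
  refine ⟨(p : integralClosure ℤ ℂ) * ⟨a, ha⟩, b * d, M.mul_mem_right _ hS.mem,
    hS.mul_not_mem hb hd, ?_⟩
  push_cast
  rw [sub_mul, hq]
  ring

end Pool.Agent.OB
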